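import Mathlib

namespace Pool.Agent.Results.MP_081fbf_lc.Q1

inductive Sym | a | b | c | d

open Sym List

/-- One rewrite step of the string rewriting system `T`. -/
def Step (T : List (List Sym × List Sym)) (x y : List Sym) : Prop :=
  ∃ u v, ∃ p ∈ T, x = u ++ p.1 ++ v ∧ y = u ++ p.2 ++ v

def R : List (List Sym × List Sym) :=
  [([a, d], [d, b]), ([a], [b, b, b]), ([d], []), ([a], []), ([b, c], [c, d, d]),
    ([a, c], [b, b, c, d])]

def S : List (List Sym × List Sym) := [([b, d, b], [a, d]), ([a, d], [b, d, b])]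

def go : ℕ → ℕ → ℕ → List Sym → List ℕ
  | p, V, W, [] => [p, V, W]
  | p, V, W, a :: w => go p (V + 3 * p + 3) (W + 3 * p + 1) w
  | p, V, W, b :: w => go p (V + p + 1) (W + p) w
  | p, V, W, c :: w => p :: V :: W :: go 0 0 0 w
  | p, V, W, d :: w => go (2 * p + 1) V W w

lemma len (w : List Sym) : ∀ p V W q U X, (go p V W w).length = (go q U X w).length := by
  induction w with
  | nil => intros; rfl
  | cons x w ih => intros; cases x <;> simp only [go, length_cons] <;> apply ih

lemma lx {p V W q U X : ℕ} (h : p < q ∨ p = q ∧ (V < U ∨ V = U ∧ W < X)) (s t : List ℕ) :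
    Lex (· < ·) (p :: V :: W :: s) (q :: U :: X :: t) := by
  rcases h with h | ⟨rfl, h | ⟨rfl, h⟩⟩
  exacts [.rel h, .cons (.rel h), .cons (.cons (.rel h))]

lemma mono (w : List Sym) : ∀ p V W q U X, (p < q ∨ p = q ∧ (V < U ∨ V = U ∧ W < X)) →
    Shortlex (· < ·) (go p V W w) (go q U X w) := by
  intro p V W q U X h
  refine .of_lex (len ..) ?_
  induction w generalizing p V W q U X with
  | nil => exact lx h _ _
  | cons x w ih => cases x <;> first | exact ih _ _ _ _ _ _ (by omega) | exact lx h _ _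

lemma ctx (P : List ℕ → List ℕ → Prop) (hP : ∀ n s t, P s t → P (n :: s) (n :: t)) (u x y : List Sym)
    (h : ∀ p V W, P (go p V W x) (go p V W y)) : ∀ p V W, P (go p V W (u ++ x)) (go p V W (u ++ y)) := by
  induction u with
  | nil => exact h
  | cons z u ih => intros; cases z <;> first | apply ih | exact hP _ _ _ (hP _ _ _ (hP _ _ _ (ih ..)))

lemma stepR {x y} (h : Step R x y) : Shortlex (· < ·) (go 0 0 0 y) (go 0 0 0 x) := by
  obtain ⟨u, v, r, m, rfl, rfl⟩ := h
  rw [append_assoc, append_assoc]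
  refine ctx _ (fun n s t h => shortlex_cons_iff.2 h) u _ _ (fun p V W => ?_) 0 0 0
  simp only [R, mem_cons, not_mem_nil, or_false] at m
  rcases m with rfl | rfl | rfl | rfl | rfl | rfl
  iterate 4
    simp only [cons_append, nil_append, go]
    exact mono v _ _ _ _ _ _ (by omega)
  all_goals
    simp only [cons_append, nil_append, go]
    exact .of_lex (congrArg (· + 3) (len v ..)) (lx (by omega) _ _)

lemma stepS {x y} (h : Step S x y) : go 0 0 0 y = go 0 0 0 x := by
  obtain ⟨u, v, r, m, rfl, rfl⟩ := h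
  rw [append_assoc, append_assoc]
  refine ctx (· = ·) (fun n s t h => congrArg _ h) u _ _ (fun p V W => ?_) 0 0 0
  simp only [S, mem_cons, not_mem_nil, or_false] at m
  rcases m with rfl | rfl <;> simp only [cons_append, nil_append, go] <;> congr 1 <;> omega

theorem result (x : ℕ → List Sym) (h : ∀ n, Step (R ++ S) (x n) (x (n + 1))) :
    {n | Step R (x n) (x (n + 1))}.Finite := by
  obtain ⟨_, ⟨N, rfl⟩, m⟩ := (Shortlex.wf (r := (· < ·)) wellFounded_lt).has_min
    (Set.range fun n => go 0 0 0 (x n)) ⟨_, 0, rfl⟩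
  have e (n) (hn : N ≤ n) : go 0 0 0 (x n) = go 0 0 0 (x N) := by
    induction hn with
    | refl => rfl
    | step _ ih =>
      obtain ⟨u, v, r, k, t⟩ := h _
      rcases mem_append.1 k with k | k
      · exact absurd (ih ▸ stepR ⟨u, v, r, k, t⟩) (m _ ⟨_, rfl⟩)
      · exact (stepS ⟨u, v, r, k, t⟩).trans ih
  refine (Set.finite_lt_nat N).subset fun n k => (not_le.1 fun hn => ?_ : n < N)
  exact m _ ⟨_, rfl⟩ (e n hn ▸ stepR k)

end Pool.Agent.Results.MP_081fbf_lc.Q1
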